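import Pool.Agent.Results.MP_fcb754_nt.AlmostAllWeights
import Pool.Agent.X283.BZ.Near
import Pool.Agent.X283.DA.PackFam

/-!
# The Lindelöf-type bound for the Barnes multiple zeta function near real powers and at denominators of approximations

For every `d ≥ 1` and almost every `v ∈ ℝ^d` and every countable family of Barnes zeta functions `ζ_r(·; a, w)` with
weights `w` in any numbers `r ≥ 2` which span the same `ℚ`-space as `v`: let `η > 0`, `0 ≤ θ < 1`,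
`s = max(1 - 2η, 0)`. For all `τ > 1` outside one set of Hausdorff dimension at most `s / (1 - θ)`, for almost all
`τ` if `θ < 2η` (and `θ < 1`), ALL members and all `σ₁`, the bound `|ζ_r(σ + it; a, w)| ≤ t^η` of Q1 holds on the
whole strip `r - d/2 ≤ σ ≤ σ₁` for ALL real `t` near the `u ^ θ`-neighbourhood of `u = τ ^ κ_n`, `n` large; the same
near `u = n ^ τ` and near the denominators of good approximations of almost every point of `ℝ ^ k`.
-/

set_option autoImplicit false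

open Filter Topology MeasureTheory

namespace Pool.Agent.Results.MP_fcb754_nt.PowersAndDenominators

open Pool.Agent.X283.DA
open Pool.Agent.Results.MP_fcb754_nt.AlmostAllWeights (IsBarnesZeta weightDim exists_zeta zeta_eq weightDim_eq)

/-- The bound of Q1 with exponent `η`: `|Z(σ + it)| ≤ t^η` for all real `t` in `[m, m + 1)` and all
`σ ∈ [r - d/2, σ₁]`, where `d` is the dimension of the weights. -/
def Holds (r : ℕ) (w : Fin r → ℝ) (Z : ℂ → ℂ) (η : ℝ) (σ₁ m : ℕ) : Prop :=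
  ∀ t σ : ℝ, (m : ℝ) ≤ t → t < m + 1 → (r : ℝ) - (weightDim r w : ℝ) / 2 ≤ σ → σ ≤ σ₁ →
    ‖Z (σ + t * Complex.I)‖ ≤ t ^ η

/-- `Z` is the Barnes zeta function for `a > 0` and the positive weights `w`, `r ≥ 2` in number, which span the
same `ℚ`-space as `v`. -/
def Member {d : ℕ} (v : Fin d → ℝ) (r : ℕ) (w : Fin r → ℝ) (a : ℝ) (Z : ℂ → ℂ) : Prop :=
  2 ≤ r ∧ (∀ j, 0 < w j) ∧ Submodule.span ℚ (Set.range w) = Submodule.span ℚ (Set.range v) ∧ 0 < a ∧
    IsBarnesZeta r a w Z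

/-- **Theorem.** (1) The Barnes multiple zeta function exists for all `r`, `a > 0` and positive weights. (2) For
every `d ≥ 1` and almost every `v ∈ ℝ^d`: for every countable family of Barnes zeta functions with `r ≥ 2` weights
which span the same `ℚ`-space as `v` (it has dimension `d`) and every `η > 0`, the bound of Q1 with exponent `η` for
all members and all `σ₁` at once has the properties `FamAtPowers`, `FamAtExponents`, `FamAtDenominators` and
`FamAtApproximations` with `s = max(1 - 2η, 0)`. -/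
theorem result :
    (∀ (r : ℕ) (a : ℝ) (w : Fin r → ℝ), 0 < a → (∀ i, 0 < w i) → ∃ Z : ℂ → ℂ, IsBarnesZeta r a w Z) ∧
    ∀ d : ℕ, 1 ≤ d → ∀ᵐ v : Fin d → ℝ, LinearIndependent ℚ v ∧
      ∀ {ι : Type} [Countable ι] (r : ι → ℕ) (w : ∀ i, Fin (r i) → ℝ) (a : ι → ℝ) (Z : ι → ℂ → ℂ),
        (∀ i, Member v (r i) (w i) (a i) (Z i)) → (∀ i, weightDim (r i) (w i) = d) ∧ ∀ η : ℝ, 0 < η →
        FamAtPowers (fun p : ι × ℕ => Holds (r p.1) (w p.1) (Z p.1) η p.2) (max (1 - 2 * η) 0) ∧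
        FamAtExponents (fun p : ι × ℕ => Holds (r p.1) (w p.1) (Z p.1) η p.2) (max (1 - 2 * η) 0) ∧
        FamAtDenominators (fun p : ι × ℕ => Holds (r p.1) (w p.1) (Z p.1) η p.2) (max (1 - 2 * η) 0) ∧
        FamAtApproximations (fun p : ι × ℕ => Holds (r p.1) (w p.1) (Z p.1) η p.2) (max (1 - 2 * η) 0) := by
  refine ⟨exists_zeta, fun d hd => ?_⟩
  filter_upwards [Pool.Agent.Y616.BM.ae_good d, Pool.Agent.Y616.BM.ae_indep d] with v hG hv
  refine ⟨hv, ?_⟩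
  intro ι _ r w a Z hmem
  refine ⟨fun i => weightDim_eq hv (hmem i).2.2.1, fun η hη => ?_⟩
  refine pack_family (fun p : ι × ℕ => Holds (r p.1) (w p.1) (Z p.1) η p.2) (le_max_right _ _) ?_
  rintro ⟨i, σ₁⟩
  obtain ⟨hr, hw, hspan, ha, hZ⟩ := hmem i
  refine sparse_of_dyadic (le_max_right _ _) fun ε hε => ?_
  set s : ℝ := max (1 - 2 * η) 0 with hs
  obtain ⟨B, e, he, -, -⟩ := Pool.Agent.Y616.BM.lin hv hspan
  have hdr : d ≤ r i := by
    simpa using Fintype.card_le_of_injective e he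
  have hdr' : (d : ℝ) ≤ r i := Nat.cast_le.2 hdr
  have hr' : (2 : ℝ) ≤ r i := by exact_mod_cast hr
  obtain ⟨c, hc⟩ := Pool.Agent.H131R5.BZ.exists_taylor (a i) hw
  set m : ℝ := (r i : ℝ) - d / 2 with hm
  have hm1 : 1 ≤ m := by linarith
  set κ : ℝ := min (ε / 4) (1 / 2) with hκ
  have hκ0 : 0 < κ := lt_min (by positivity) (by norm_num)
  have hκ1 : κ ≤ 1 / 2 := min_le_right _ _
  have hκε : κ ≤ ε / 4 := min_le_left _ _
  obtain ⟨C₀, hC₀, h1⟩ := Pool.Agent.Y616.BM.second_moment' hv hG ha hw hspan hc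
    (σ := m - κ) (m := m) (by linarith) (by linarith) le_rfl (ε := ε / 2) (by positivity)
  have e1 : 1 + 2 * (m - (m - κ)) + ε / 2 = 1 + 2 * κ + ε / 2 := by ring
  rw [e1] at h1
  obtain ⟨C, hC, h2⟩ := Pool.Agent.X283.BZ.bad_count (σ₁ := (σ₁ : ℝ)) ha hw hc (α := m - κ)
    (by linarith) hκ0 (by linarith) (by linarith) hC₀ h1 hη.le
  refine ⟨C * 2 ^ (s + ε), 3, fun K hK => ?_⟩
  have hK3 : (3 : ℝ) ≤ K := by exact_mod_cast hK
  have hsub : {n : ℕ | n ∈ {A : ℕ | ¬ Holds (r i) (w i) (Z i) η σ₁ A} ∧ K < n ∧ n ≤ 2 * K} ⊆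
      {n : ℕ | (∃ t : ℝ, (n : ℝ) ≤ t ∧ t < n + 1 ∧ ∃ σ : ℝ, (m - κ) + κ ≤ σ ∧ σ ≤ (σ₁ : ℝ) ∧
        t ^ η < ‖Pool.Agent.H131R5.BZ.FF (a i) (w i) c ((σ : ℂ) + t * Complex.I)‖) ∧ K < n ∧ n ≤ 2 * K} := by
    rintro n ⟨hn, hn1, hn2⟩
    refine ⟨?_, hn1, hn2⟩
    have hn' : ¬ Holds (r i) (w i) (Z i) η σ₁ n := hn
    unfold Holds at hn'
    push Not at hn'
    obtain ⟨t, σ, ht1, ht2, hσ, hσ1, hbig⟩ := hn'
    rw [weightDim_eq hv hspan] at hσ
    have ht0 : 0 < t := by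
      have : (0 : ℝ) < n := by exact_mod_cast (by omega : 0 < n)
      linarith
    refine ⟨t, ht1, ht2, σ, by linarith, hσ1, ?_⟩
    rw [← zeta_eq ha hw hc hZ σ ht0]
    exact hbig
  have hfin : {n : ℕ | (∃ t : ℝ, (n : ℝ) ≤ t ∧ t < n + 1 ∧ ∃ σ : ℝ, (m - κ) + κ ≤ σ ∧ σ ≤ (σ₁ : ℝ) ∧
        t ^ η < ‖Pool.Agent.H131R5.BZ.FF (a i) (w i) c ((σ : ℂ) + t * Complex.I)‖) ∧ K < n ∧
          n ≤ 2 * K}.Finite := (Set.finite_Iic (2 * K)).subset fun n hn => hn.2.2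
  have h3 : ({n : ℕ | n ∈ {A : ℕ | ¬ Holds (r i) (w i) (Z i) η σ₁ A} ∧ K < n ∧ n ≤ 2 * K}.ncard : ℝ) ≤
      C * ((K : ℝ) + 1) ^ (1 + 2 * κ + ε / 2 - 2 * η) :=
    le_trans (by exact_mod_cast Set.ncard_le_ncard hsub hfin) (h2 K hK)
  refine h3.trans ?_
  have hle : 1 + 2 * κ + ε / 2 - 2 * η ≤ s + ε := by
    have := le_max_left (1 - 2 * η) 0
    rw [← hs] at this
    linarith
  have hs0 : 0 ≤ s := le_max_right _ _
  calc C * ((K : ℝ) + 1) ^ (1 + 2 * κ + ε / 2 - 2 * η) ≤ C * ((K : ℝ) + 1) ^ (s + ε) :=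
        mul_le_mul_of_nonneg_left (Real.rpow_le_rpow_of_exponent_le (by linarith) hle) hC
    _ ≤ C * (2 * (K : ℝ)) ^ (s + ε) :=
        mul_le_mul_of_nonneg_left (Real.rpow_le_rpow (by positivity) (by linarith) (by linarith)) hC
    _ = C * 2 ^ (s + ε) * (K : ℝ) ^ (s + ε) := by
        rw [Real.mul_rpow (by norm_num) (by linarith)]
        ring

end Pool.Agent.Results.MP_fcb754_nt.PowersAndDenominators
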