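import Pool.Agent.Results.MP_fcb754_nt.AlmostAllWeights
import Pool.Agent.X283.BZ.Maximal

/-!
# The Lindelöf-type bound for the Barnes multiple zeta function along well spaced ordinates

For every `d ≥ 1` and almost every `v ∈ ℝ^d` the following holds for all `r ≥ 2`, all positive weights `w` which span
the same `ℚ`-space as `v`, all `a > 0`, all `σ₁`, `η ≥ 0` and `ε > 0`: in every finite set `W` of ordinates in
`[T, 2T]` with mutual distances `≥ 1` at most `O(T^(1 - 2η + ε))` elements `t` have `|ζ_r(σ + it; a, w)| > t^η` for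
some `σ ∈ [r - d/2, σ₁]`. So for every sequence of ordinates with mutual distances `≥ 1` which has at least
`T^(1 - 2η + δ)` terms in `[T, 2T]` for all large `T`, `δ > 0` (for instance `c n^λ` with `1 ≤ λ < 1 / (1 - 2η)`, the
primes, or any sequence of positive density if `η > 0`), the bound `t^η` of Q1 holds in the whole strip for `100%` of
the terms.
-/

set_option autoImplicit false

open Filter Topology MeasureTheory

namespace Pool.Agent.Results.MP_fcb754_nt.WellSpacedOrdinates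

open Pool.Agent.Results.MP_fcb754_nt.AlmostAllWeights (IsBarnesZeta weightDim exists_zeta zeta_eq weightDim_eq)

/-- The ordinate `t` is exceptional for the bound `t^η` of Q1: `|Z(σ + it)| > t^η` for some `σ ∈ [r - d/2, σ₁]`, where
`d` is the dimension of the weights. -/
def Exceptional (r : ℕ) (w : Fin r → ℝ) (Z : ℂ → ℂ) (σ₁ η t : ℝ) : Prop :=
  ∃ σ : ℝ, (r : ℝ) - (weightDim r w : ℝ) / 2 ≤ σ ∧ σ ≤ σ₁ ∧ t ^ η < ‖Z (σ + t * Complex.I)‖

/-- (1) Sets of exceptional ordinates in `[T, 2T]` with mutual distances `≥ 1` have at most `C T^(1 - 2η + ε)`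
elements. (2) If the numbers `t_n` have mutual distances `≥ 1` and for some `δ > 0` and all large `T` at least
`T^(1 - 2η + δ)` of them are in `[T, 2T]`, then the proportion of the `n` with `t_n ∈ [T, 2T]` for which `t_n` is
exceptional tends to `0`. -/
def FewExceptions (r : ℕ) (w : Fin r → ℝ) : Prop :=
  ∀ (a : ℝ) (Z : ℂ → ℂ), 0 < a → IsBarnesZeta r a w Z → ∀ σ₁ η : ℝ, 0 ≤ η →
    (∀ ε : ℝ, 0 < ε → ∃ C : ℝ, ∀ T : ℝ, 3 ≤ T → ∀ W : Finset ℝ, (∀ t ∈ W, T ≤ t ∧ t ≤ 2 * T) →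
      (∀ t ∈ W, ∀ u ∈ W, t ≠ u → 1 ≤ |t - u|) → (∀ t ∈ W, Exceptional r w Z σ₁ η t) →
      (W.card : ℝ) ≤ C * T ^ (1 - 2 * η + ε)) ∧
    ∀ (δ : ℝ) (s : ℕ → ℝ), 0 < δ → (∀ m n : ℕ, m ≠ n → 1 ≤ |s m - s n|) →
      (∀ᶠ T : ℝ in atTop, T ^ (1 - 2 * η + δ) ≤ ({n : ℕ | T ≤ s n ∧ s n ≤ 2 * T}.ncard : ℝ)) →
      Tendsto (fun T : ℝ => ({n : ℕ | T ≤ s n ∧ s n ≤ 2 * T ∧ Exceptional r w Z σ₁ η (s n)}.ncard : ℝ) /
        ({n : ℕ | T ≤ s n ∧ s n ≤ 2 * T}.ncard : ℝ)) atTop (𝓝 0)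

theorem few_of_good {d : ℕ} {v : Fin d → ℝ} (hv : LinearIndependent ℚ v)
    (hG : Pool.Agent.Y616.BM.Good v) {r : ℕ} (hr : 2 ≤ r) {w : Fin r → ℝ} (hw : ∀ i, 0 < w i)
    (hspan : Submodule.span ℚ (Set.range w) = Submodule.span ℚ (Set.range v)) {a : ℝ} {Z : ℂ → ℂ}
    (ha : 0 < a) (hZ : IsBarnesZeta r a w Z) (σ₁ : ℝ) {η : ℝ} (hη : 0 ≤ η) {ε : ℝ} (hε : 0 < ε) :
    ∃ C : ℝ, 0 ≤ C ∧ ∀ T : ℝ, 3 ≤ T → ∀ W : Finset ℝ, (∀ t ∈ W, T ≤ t ∧ t ≤ 2 * T) →
      (∀ t ∈ W, ∀ u ∈ W, t ≠ u → 1 ≤ |t - u|) → (∀ t ∈ W, Exceptional r w Z σ₁ η t) →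
      (W.card : ℝ) ≤ C * T ^ (1 - 2 * η + ε) := by
  have hdim := weightDim_eq hv hspan
  obtain ⟨B, e, he, -, -⟩ := Pool.Agent.Y616.BM.lin hv hspan
  have hdr : d ≤ r := by
    simpa using Fintype.card_le_of_injective e he
  have hdr' : (d : ℝ) ≤ r := Nat.cast_le.2 hdr
  have hr' : (2 : ℝ) ≤ r := by exact_mod_cast hr
  obtain ⟨c, hc⟩ := Pool.Agent.H131R5.BZ.exists_taylor a hw
  set m : ℝ := (r : ℝ) - d / 2 with hm
  have hm1 : 1 ≤ m := by linarith
  set κ : ℝ := min (ε / 4) (1 / 2) with hκ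
  have hκ0 : 0 < κ := lt_min (by positivity) (by norm_num)
  have hκ1 : κ ≤ 1 / 2 := min_le_right _ _
  have hκε : κ ≤ ε / 4 := min_le_left _ _
  obtain ⟨C₀, hC₀, h1⟩ := Pool.Agent.Y616.BM.second_moment' hv hG ha hw hspan hc
    (σ := m - κ) (m := m) (by linarith) (by linarith) le_rfl (ε := ε / 2) (by positivity)
  have e1 : 1 + 2 * (m - (m - κ)) + ε / 2 = 1 + 2 * κ + ε / 2 := by ring
  rw [e1] at h1
  obtain ⟨C, hC, h2⟩ := Pool.Agent.X283.BZ.maximal (σ₁ := σ₁) ha hw hc (α := m - κ)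
    (by linarith) hκ0 (by linarith) (by linarith) hC₀ h1
  have h3 : ∀ T : ℝ, 3 ≤ T → ∫⁻ u in Set.Icc 3 T, (⨆ (t : ℝ) (_ : |t - u| ≤ 1) (σ : ℝ)
      (_ : m - κ + κ ≤ σ ∧ σ ≤ σ₁), ‖Pool.Agent.H131R5.BZ.FF a w c ((σ : ℂ) + t * Complex.I)‖ₑ ^ 2) ≤
      ENNReal.ofReal (C * T ^ (1 + ε)) := by
    intro T hT
    refine (h2 T hT).trans (ENNReal.ofReal_le_ofReal (mul_le_mul_of_nonneg_left ?_ hC))
    exact Real.rpow_le_rpow_of_exponent_le (by linarith) (by linarith)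
  refine ⟨C * 2 ^ (1 + ε) * 2 ^ (1 + ε), by positivity, fun T hT W hW hsep hbad => ?_⟩
  classical
  have hT0 : 0 < T := by linarith
  choose! σ hσ1 hσ2 hσ3 using hbad
  have h4 := Pool.Agent.X283.BZ.discrete (F := fun σ t =>
      ‖Pool.Agent.H131R5.BZ.FF a w c ((σ : ℂ) + t * Complex.I)‖ₑ ^ 2) (P := fun σ => m - κ + κ ≤ σ ∧ σ ≤ σ₁)
      h3 (T := 2 * T) (by linarith) W σ (fun t ht => ⟨by linarith [(hW t ht).1], (hW t ht).2⟩) hsep
      (fun t ht => ⟨by
        have := hσ1 t ht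
        rw [hdim] at this
        linarith, hσ2 t ht⟩)
  have h5 : ENNReal.ofReal (∑ t ∈ W, ‖Z (σ t + t * Complex.I)‖ ^ 2) ≤
      ENNReal.ofReal (C * 2 ^ (1 + ε) * (2 * T) ^ (1 + ε)) := by
    refine le_trans (le_of_eq ?_) h4
    rw [ENNReal.ofReal_sum_of_nonneg fun t _ => by positivity]
    refine Finset.sum_congr rfl fun t ht => ?_
    have ht0 : 0 < t := by linarith [(hW t ht).1]
    rw [zeta_eq ha hw hc hZ (σ t) ht0, ENNReal.ofReal_pow (norm_nonneg _), ofReal_norm]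
  have h6 := (ENNReal.ofReal_le_ofReal_iff (by positivity)).1 h5
  have h7 : (W.card : ℝ) * T ^ (2 * η) ≤ ∑ t ∈ W, ‖Z (σ t + t * Complex.I)‖ ^ 2 := by
    calc (W.card : ℝ) * T ^ (2 * η) = ∑ _t ∈ W, T ^ (2 * η) := by
          rw [Finset.sum_const, nsmul_eq_mul]
      _ ≤ _ := by
          refine Finset.sum_le_sum fun t ht => ?_
          have hTt := (hW t ht).1
          have ht0 : 0 < t := by linarith
          calc T ^ (2 * η) ≤ t ^ (2 * η) := Real.rpow_le_rpow hT0.le hTt (by linarith)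
            _ = (t ^ η) ^ 2 := by
                rw [← Real.rpow_natCast, ← Real.rpow_mul ht0.le]
                congr 1
                push_cast
                ring
            _ ≤ _ := pow_le_pow_left₀ (by positivity) (hσ3 t ht).le 2
  have hpos : 0 < T ^ (2 * η) := Real.rpow_pos_of_pos hT0 _
  have h8 : (W.card : ℝ) ≤ C * 2 ^ (1 + ε) * (2 * T) ^ (1 + ε) / T ^ (2 * η) := by
    rw [le_div_iff₀ hpos]
    exact h7.trans h6
  refine h8.trans (le_of_eq ?_)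
  rw [Real.mul_rpow (by norm_num) hT0.le]
  have e2 : T ^ (1 - 2 * η + ε) = T ^ (1 + ε) / T ^ (2 * η) := by
    rw [← Real.rpow_sub hT0]
    congr 1
    ring
  rw [e2]
  ring

/-- **Theorem.** (1) The Barnes multiple zeta function exists for all `r`, `a > 0` and positive weights. (2) For
every `d ≥ 1` and almost every `v ∈ ℝ^d`: all positive weights `w`, in any number `r ≥ 2`, which span the same
`ℚ`-space as `v` have dimension `d` and satisfy `FewExceptions`. -/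
theorem result :
    (∀ (r : ℕ) (a : ℝ) (w : Fin r → ℝ), 0 < a → (∀ i, 0 < w i) → ∃ Z : ℂ → ℂ, IsBarnesZeta r a w Z) ∧
    ∀ d : ℕ, 1 ≤ d → ∀ᵐ v : Fin d → ℝ, LinearIndependent ℚ v ∧
      ∀ (r : ℕ) (w : Fin r → ℝ), 2 ≤ r → (∀ i, 0 < w i) →
        Submodule.span ℚ (Set.range w) = Submodule.span ℚ (Set.range v) →
        weightDim r w = d ∧ FewExceptions r w := by
  classical
  refine ⟨exists_zeta, fun d hd => ?_⟩
  filter_upwards [Pool.Agent.Y616.BM.ae_good d, Pool.Agent.Y616.BM.ae_indep d] with v hG hv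
  refine ⟨hv, fun r w hr hw hspan => ⟨weightDim_eq hv hspan, fun a Z ha hZ σ₁ η hη => ⟨fun ε hε => ?_, ?_⟩⟩⟩
  · obtain ⟨C, -, h⟩ := few_of_good hv hG hr hw hspan ha hZ σ₁ hη hε
    exact ⟨C, h⟩
  intro δ s hδ hs hN
  obtain ⟨C, hC, h⟩ := few_of_good hv hG hr hw hspan ha hZ σ₁ hη (half_pos hδ)
  have hinj : Function.Injective s := by
    intro m n hmn
    by_contra hne
    have := hs m n hne
    rw [hmn, sub_self, abs_zero] at this
    linarith
  have hbound : ∀ T : ℝ, 3 ≤ T →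
      ({n : ℕ | T ≤ s n ∧ s n ≤ 2 * T ∧ Exceptional r w Z σ₁ η (s n)}.ncard : ℝ) ≤
        C * T ^ (1 - 2 * η + δ / 2) := by
    intro T hT
    have hT0 : 0 < T := by linarith
    set A : Set ℕ := {n : ℕ | T ≤ s n ∧ s n ≤ 2 * T ∧ Exceptional r w Z σ₁ η (s n)} with hA
    by_cases hfin : A.Finite
    · have h1 := h T hT (hfin.toFinset.image s) (by
        intro t ht
        rw [Finset.mem_image] at ht
        obtain ⟨n, hn, rfl⟩ := ht
        rw [Set.Finite.mem_toFinset] at hn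
        exact ⟨hn.1, hn.2.1⟩) (by
        intro t ht u hu htu
        rw [Finset.mem_image] at ht hu
        obtain ⟨n, hn, rfl⟩ := ht
        obtain ⟨k, hk, rfl⟩ := hu
        exact hs n k fun hnk => htu (by rw [hnk])) (by
        intro t ht
        rw [Finset.mem_image] at ht
        obtain ⟨n, hn, rfl⟩ := ht
        rw [Set.Finite.mem_toFinset] at hn
        exact hn.2.2)
      rw [Finset.card_image_of_injective _ hinj] at h1
      rwa [Set.ncard_eq_toFinset_card _ hfin]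
    · have h1 : A.Infinite := hfin
      rw [h1.ncard]
      push_cast
      positivity
  have hlim : Tendsto (fun T : ℝ => C * T ^ (-(δ / 2))) atTop (𝓝 0) := by
    have := (tendsto_rpow_neg_atTop (half_pos hδ)).const_mul C
    rwa [mul_zero] at this
  refine squeeze_zero' (Eventually.of_forall fun T => by positivity) ?_ hlim
  filter_upwards [hN, eventually_ge_atTop (3 : ℝ)] with T hT1 hT3
  have hT0 : 0 < T := by linarith
  have hp : 0 < T ^ (1 - 2 * η + δ) := Real.rpow_pos_of_pos hT0 _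
  have hNpos : 0 < ({n : ℕ | T ≤ s n ∧ s n ≤ 2 * T}.ncard : ℝ) := hp.trans_le hT1
  rw [div_le_iff₀ hNpos]
  refine (hbound T hT3).trans ?_
  have e3 : T ^ (1 - 2 * η + δ / 2) = T ^ (-(δ / 2)) * T ^ (1 - 2 * η + δ) := by
    rw [← Real.rpow_add hT0]
    congr 1
    ring
  rw [e3, ← mul_assoc]
  exact mul_le_mul_of_nonneg_left hT1 (by positivity)

end Pool.Agent.Results.MP_fcb754_nt.WellSpacedOrdinates
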